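import Pool.Agent.H484.HH.Stm

/-! # HH (helper484): HS, the harmonic sum -/

set_option autoImplicit false

open Finset

namespace Pool.Agent.H484.HH

namespace HSAux

theorem card_fib {N : ℕ} [NeZero N] (m : ℕ) :
    (univ.filter fun k : ZMod N => k.valMinAbs.natAbs = m).card ≤ 2 := by
  have h : (univ.filter fun k : ZMod N => k.valMinAbs.natAbs = m).card ≤
      ({(m : ℤ), -(m : ℤ)} : Finset ℤ).card := by
    refine card_le_card_of_injOn (fun k => k.valMinAbs) ?_ ?_
    · intro k hk
      have h1 := (mem_filter.1 (mem_coe.1 hk)).2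
      have h2 := Int.natAbs_eq k.valMinAbs
      rw [h1] at h2
      simpa using h2
    · exact fun a _ b _ hab => ZMod.injective_valMinAbs hab
  exact h.trans card_le_two

theorem card_fib0 {N : ℕ} [NeZero N] :
    (univ.filter fun k : ZMod N => k.valMinAbs.natAbs = 0).card ≤ 1 := by
  refine card_le_one.2 fun a ha b hb => ?_
  have h1 := (mem_filter.1 ha).2
  have h2 := (mem_filter.1 hb).2
  rw [Int.natAbs_eq_zero, ZMod.valMinAbs_eq_zero] at h1 h2
  rw [h1, h2]

end HSAux

open HSAux

/-- **HS.** -/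
theorem t_HS : S_HS := by
  intro N _
  have hmaps : ∀ k ∈ (univ : Finset (ZMod N)), k.valMinAbs.natAbs ∈ range (N / 2 + 1) := by
    intro k _
    rw [mem_range]
    have := ZMod.natAbs_valMinAbs_le k
    omega
  have hN : (1 : ℝ) ≤ N := by exact_mod_cast NeZero.one_le
  rw [← sum_fiberwise_of_maps_to hmaps]
  have h1 : ∀ m ∈ range (N / 2 + 1), ∑ k ∈ univ.filter (fun k : ZMod N => k.valMinAbs.natAbs = m),
      1 / M k = ((univ.filter fun k : ZMod N => k.valMinAbs.natAbs = m).card : ℝ) *
        (1 / max 1 (m : ℝ)) := by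
    intro m _
    rw [← nsmul_eq_mul, ← sum_const]
    refine sum_congr rfl fun k hk => ?_
    unfold M
    rw [(mem_filter.1 hk).2]
  rw [sum_congr rfl h1, sum_range_succ']
  have h2 : ((univ.filter fun k : ZMod N => k.valMinAbs.natAbs = 0).card : ℝ) *
      (1 / max 1 ((0 : ℕ) : ℝ)) ≤ 1 := by
    have h3 : ((univ.filter fun k : ZMod N => k.valMinAbs.natAbs = 0).card : ℝ) ≤ 1 := by
      exact_mod_cast card_fib0
    simpa using h3
  have h4 : ∑ m ∈ range (N / 2), ((univ.filter fun k : ZMod N =>
      k.valMinAbs.natAbs = m + 1).card : ℝ) * (1 / max 1 ((m + 1 : ℕ) : ℝ)) ≤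
      2 * (harmonic (N / 2) : ℝ) := by
    unfold harmonic
    push_cast
    rw [mul_sum]
    refine sum_le_sum fun m _ => ?_
    have h5 : ((univ.filter fun k : ZMod N => k.valMinAbs.natAbs = m + 1).card : ℝ) ≤ 2 := by
      exact_mod_cast card_fib (m + 1)
    have h6 : max 1 ((m : ℝ) + 1) = (m : ℝ) + 1 := max_eq_right (by
      have : (0 : ℝ) ≤ m := Nat.cast_nonneg m
      linarith)
    rw [h6, one_div]
    exact mul_le_mul_of_nonneg_right h5 (by positivity)
  have h7 : (harmonic (N / 2) : ℝ) ≤ 1 + Real.log N := by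
    refine (harmonic_le_one_add_log (N / 2)).trans (add_le_add le_rfl ?_)
    rcases Nat.eq_zero_or_pos (N / 2) with h | h
    · rw [h]
      simpa using Real.log_nonneg hN
    · refine Real.log_le_log (by exact_mod_cast h) ?_
      exact_mod_cast Nat.div_le_self N 2
  linarith

end Pool.Agent.H484.HH
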